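import Pool.Agent.TH198.AT.Conv
import Pool.Agent.TH479.AT.STEIN

/-!
# Heat extension of functions of exponential growth (HEATE)
-/

set_option autoImplicit false

open MeasureTheory ProbabilityTheory Set Filter Topology

namespace Pool.TH330.AT

open Pool.TH198.AT

/-- integrability of the majorants -/
theorem exp_abs_int (A c : ℝ) : Integrable (fun y : ℝ => A * Real.exp (c * |y|))
    (gaussianReal 0 1) := by
  refine Integrable.const_mul ?_ A
  refine Integrable.mono' (g := fun y => Real.exp (c * y) + Real.exp (-c * y)) ?_ ?_ ?_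
  · exact (integrable_exp_mul_gaussianReal c).add (integrable_exp_mul_gaussianReal (-c))
  · exact (Continuous.aestronglyMeasurable (by fun_prop))
  · refine Eventually.of_forall fun y => ?_
    rw [Real.norm_eq_abs, abs_of_pos (Real.exp_pos _)]
    rcases abs_cases y with h | h
    · rw [h.1]
      have := Real.exp_pos (-c * y)
      linarith
    · rw [h.1]
      have h1 : c * -y = -c * y := by ring
      rw [h1]
      have := Real.exp_pos (c * y)
      linarith

/-- growth of the shifted function -/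
theorem grow {f : ℝ → ℝ} {C K : ℝ} (hC : 0 ≤ C) (hK : 0 ≤ K)
    (hf : ∀ x, |f x| ≤ C * Real.exp (K * |x|)) {x s X S : ℝ} (hx : |x| ≤ X) (hs : |s| ≤ S) (y : ℝ) :
    |f (x + s * y)| ≤ C * Real.exp (K * X) * Real.exp (K * S * |y|) := by
  refine (hf _).trans ?_
  rw [mul_assoc, ← Real.exp_add]
  refine mul_le_mul_of_nonneg_left (Real.exp_le_exp.2 ?_) hC
  have h1 : |x + s * y| ≤ |x| + |s| * |y| := by
    rw [← abs_mul]; exact abs_add_le _ _
  have h2 : |s| * |y| ≤ S * |y| := mul_le_mul_of_nonneg_right hs (abs_nonneg y)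
  have h3 : |x + s * y| ≤ X + S * |y| := by linarith
  have h4 := mul_le_mul_of_nonneg_left h3 hK
  linarith

theorem grow_int {f : ℝ → ℝ} {C K : ℝ} (hC : 0 ≤ C) (hK : 0 ≤ K) (hc : Continuous f)
    (hf : ∀ x, |f x| ≤ C * Real.exp (K * |x|)) (x s : ℝ) :
    Integrable (fun y => f (x + s * y)) (gaussianReal 0 1) := by
  refine Integrable.mono' (exp_abs_int (C * Real.exp (K * |x|)) (K * |s|))
    (hc.comp (by fun_prop)).aestronglyMeasurable (Eventually.of_forall fun y => ?_)
  rw [Real.norm_eq_abs]
  exact grow hC hK hf le_rfl le_rfl y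

/-- derivative in `x` -/
theorem der_x {f f1 : ℝ → ℝ} {C K : ℝ} (hC : 0 ≤ C) (hK : 0 ≤ K)
    (h1 : ∀ x, HasDerivAt f (f1 x) x) (hc1 : Continuous f1)
    (hf : ∀ x, |f x| ≤ C * Real.exp (K * |x|)) (hf1 : ∀ x, |f1 x| ≤ C * Real.exp (K * |x|))
    (x σ : ℝ) :
    HasDerivAt (fun x => E1 (fun y => f (x + σ * y))) (E1 (fun y => f1 (x + σ * y))) x := by
  have hc : Continuous f := continuous_iff_continuousAt.2 fun x => (h1 x).continuousAt
  have key := hasDerivAt_integral_of_dominated_loc_of_deriv_le (μ := gaussianReal 0 1)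
    (F := fun w y => f (w + σ * y)) (F' := fun w y => f1 (w + σ * y)) (x₀ := x)
    (s := Metric.ball x 1) (bound := fun y => C * Real.exp (K * (|x| + 1)) *
      Real.exp (K * |σ| * |y|))
    (Metric.ball_mem_nhds x one_pos) ?_ ?_ ?_ ?_ ?_ ?_
  · exact key.2
  · exact Eventually.of_forall fun w => (hc.comp (by fun_prop)).aestronglyMeasurable
  · exact grow_int hC hK hc hf x σ
  · exact (hc1.comp (by fun_prop)).aestronglyMeasurable
  · refine Eventually.of_forall fun y w hw => ?_
    rw [Real.norm_eq_abs]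
    refine grow hC hK hf1 ?_ le_rfl y
    rw [Metric.mem_ball, Real.dist_eq] at hw
    have h2 := abs_sub_abs_le_abs_sub w x
    linarith
  · exact exp_abs_int _ _
  · refine Eventually.of_forall fun y w _ => ?_
    have a1 : HasDerivAt (fun w : ℝ => w + σ * y) 1 w := (hasDerivAt_id w).add_const _
    have a2 := (h1 (w + σ * y)).comp w a1
    rw [mul_one] at a2
    exact a2

/-- derivative in `v` -/
theorem der_v {f f1 f2 : ℝ → ℝ} {C K : ℝ} (hC : 0 ≤ C) (hK : 0 ≤ K)
    (h1 : ∀ x, HasDerivAt f (f1 x) x) (h2 : ∀ x, HasDerivAt f1 (f2 x) x) (hc2 : Continuous f2)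
    (hf : ∀ x, |f x| ≤ C * Real.exp (K * |x|)) (hf1 : ∀ x, |f1 x| ≤ C * Real.exp (K * |x|))
    (hf2 : ∀ x, |f2 x| ≤ C * Real.exp (K * |x|)) (x v : ℝ) (hv : 0 < v) :
    HasDerivAt (fun v => E1 (fun y => f (x + √v * y))) (E1 (fun y => f2 (x + √v * y)) / 2) v := by
  have hc : Continuous f := continuous_iff_continuousAt.2 fun x => (h1 x).continuousAt
  have hc1 : Continuous f1 := continuous_iff_continuousAt.2 fun x => (h2 x).continuousAt
  have hs : 0 < √v := Real.sqrt_pos.2 hv
  have hs2 : 0 < √(v / 2) := Real.sqrt_pos.2 (by positivity)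
  have key := hasDerivAt_integral_of_dominated_loc_of_deriv_le (μ := gaussianReal 0 1)
    (F := fun w y => f (x + √w * y)) (F' := fun w y => f1 (x + √w * y) * (1 / (2 * √w) * y))
    (x₀ := v) (s := Ioo (v / 2) (v + 1))
    (bound := fun y => (C * Real.exp (K * |x|) * (1 / (2 * √(v / 2)))) *
      Real.exp ((K * √(v + 1) + 1) * |y|))
    (Ioo_mem_nhds (by linarith) (by linarith)) ?_ ?_ ?_ ?_ ?_ ?_
  · have e1 : E1 (fun y => f2 (x + √v * y)) / 2 =
        ∫ y, f1 (x + √v * y) * (1 / (2 * √v) * y) ∂(gaussianReal 0 1) := by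
      have st := Pool.TH479.AT.t_STEIN (fun y => f1 (x + √v * y)) (fun y => √v * f2 (x + √v * y))
        ((1 + √v) * (C * Real.exp (K * |x|))) (K * √v)
        (fun y => by
          have a := (h2 (x + √v * y)).comp y ((((hasDerivAt_id y).const_mul (√v))).const_add x)
          have e : f2 (x + √v * y) * (√v * 1) = √v * f2 (x + √v * y) := by ring
          rw [← e]
          exact a)
        (by fun_prop)
        (fun y => by
          have a := grow hC hK hf1 (le_refl |x|) (abs_of_pos hs).le y
          have b : 0 ≤ √v * (C * Real.exp (K * |x|) * Real.exp (K * √v * |y|)) := by positivity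
          calc |f1 (x + √v * y)| ≤ _ := a
            _ ≤ C * Real.exp (K * |x|) * Real.exp (K * √v * |y|) +
                √v * (C * Real.exp (K * |x|) * Real.exp (K * √v * |y|)) := by linarith
            _ = _ := by ring)
        (fun y => by
          have a := grow hC hK hf2 (le_refl |x|) (abs_of_pos hs).le y
          have b : 0 ≤ C * Real.exp (K * |x|) * Real.exp (K * √v * |y|) := by positivity
          rw [abs_mul, abs_of_pos hs]
          have c := mul_le_mul_of_nonneg_left a hs.le
          calc √v * |f2 (x + √v * y)| ≤ _ := c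
            _ ≤ C * Real.exp (K * |x|) * Real.exp (K * √v * |y|) +
                √v * (C * Real.exp (K * |x|) * Real.exp (K * √v * |y|)) := by linarith
            _ = _ := by ring)
      unfold E1 at st ⊢
      have e2 : ∀ y, f1 (x + √v * y) * (1 / (2 * √v) * y) =
          (1 / (2 * √v)) * (y * f1 (x + √v * y)) := by
        intro y; ring
      simp only [e2]
      rw [integral_const_mul, st, integral_const_mul]
      field_simp
    rw [e1]
    exact key.2
  · exact Eventually.of_forall fun w => (hc.comp (by fun_prop)).aestronglyMeasurable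
  · exact grow_int hC hK hc hf x (√v)
  · exact (Continuous.mul (hc1.comp (by fun_prop)) (by fun_prop)).aestronglyMeasurable
  · refine Eventually.of_forall fun y w hw => ?_
    have hw0 : 0 < w := by linarith [hw.1]
    have hle : √(v / 2) ≤ √w := Real.sqrt_le_sqrt hw.1.le
    have hle2 : √w ≤ √(v + 1) := Real.sqrt_le_sqrt hw.2.le
    have hws : 0 < √w := Real.sqrt_pos.2 hw0
    rw [Real.norm_eq_abs, abs_mul, abs_mul, abs_of_pos (by positivity : 0 < 1 / (2 * √w))]
    have a1 : 1 / (2 * √w) ≤ 1 / (2 * √(v / 2)) :=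
      one_div_le_one_div_of_le (by positivity) (by linarith)
    have a0 : |y| ≤ Real.exp |y| := by
      have := Real.add_one_le_exp |y|
      linarith
    have a2 : 1 / (2 * √w) * |y| ≤ 1 / (2 * √(v / 2)) * Real.exp |y| :=
      mul_le_mul a1 a0 (abs_nonneg y) (by positivity)
    have a3 := grow hC hK hf1 (le_refl |x|) ((abs_of_pos hws).le.trans hle2) y
    have a4 := mul_le_mul a3 a2 (by positivity) (by positivity)
    refine a4.trans (le_of_eq ?_)
    rw [add_mul, one_mul, Real.exp_add]
    ring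
  · exact exp_abs_int _ _
  · refine Eventually.of_forall fun y w hw => ?_
    have hw0 : 0 < w := by linarith [hw.1]
    have a0 : HasDerivAt (fun w : ℝ => √w) (1 / (2 * √w)) w := Real.hasDerivAt_sqrt hw0.ne'
    have a1 : HasDerivAt (fun w : ℝ => x + √w * y) (1 / (2 * √w) * y) w :=
      (a0.mul_const y).const_add x
    exact (h1 (x + √w * y)).comp w a1

/-- continuity -/
theorem cont {f : ℝ → ℝ} {C K : ℝ} (hC : 0 ≤ C) (hK : 0 ≤ K) (hc : Continuous f)
    (hf : ∀ x, |f x| ≤ C * Real.exp (K * |x|)) :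
    Continuous (fun p : ℝ × ℝ => E1 (fun y => f (p.1 + √p.2 * y))) := by
  rw [continuous_iff_continuousAt]
  intro p
  unfold E1
  refine continuousAt_of_dominated (bound := fun y => C * Real.exp (K * (|p.1| + 1)) *
    Real.exp (K * (√p.2 + 1) * |y|)) ?_ ?_ ?_ ?_
  · exact Eventually.of_forall fun q => (hc.comp (by fun_prop)).aestronglyMeasurable
  · have b1 : ∀ᶠ q : ℝ × ℝ in 𝓝 p, |q.1| < |p.1| + 1 :=
      (continuous_fst.abs.continuousAt (x := p)).eventually_lt continuousAt_const (by simp)
    have b2 : ∀ᶠ q : ℝ × ℝ in 𝓝 p, √q.2 < √p.2 + 1 :=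
      ((Real.continuous_sqrt.comp continuous_snd).continuousAt (x := p)).eventually_lt
        continuousAt_const (by simp)
    filter_upwards [b1, b2] with q hq1 hq2
    refine Eventually.of_forall fun y => ?_
    rw [Real.norm_eq_abs]
    exact grow hC hK hf hq1.le (by rw [abs_of_nonneg (Real.sqrt_nonneg _)]; exact hq2.le) y
  · exact exp_abs_int _ _
  · refine Eventually.of_forall fun y => ?_
    exact (hc.comp (by fun_prop)).continuousAt

theorem t_HEATE : St_HEATE := by
  rintro g g1 g2 ⟨h1, h2, h3, C, K, hg⟩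
  have hC : 0 ≤ C := by
    have h4 := (abs_nonneg _).trans (hg 0).1
    rw [abs_zero, mul_zero, Real.exp_zero, mul_one] at h4
    exact h4
  have hle : ∀ x : ℝ, C * Real.exp (K * |x|) ≤ C * Real.exp (|K| * |x|) := by
    intro x
    refine mul_le_mul_of_nonneg_left (Real.exp_le_exp.2 ?_) hC
    exact mul_le_mul_of_nonneg_right (le_abs_self K) (abs_nonneg x)
  have a0 : ∀ x, |g x| ≤ C * Real.exp (|K| * |x|) := fun x => (hg x).1.trans (hle x)
  have a1 : ∀ x, |g1 x| ≤ C * Real.exp (|K| * |x|) := fun x => (hg x).2.1.trans (hle x)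
  have a2 : ∀ x, |g2 x| ≤ C * Real.exp (|K| * |x|) := fun x => (hg x).2.2.trans (hle x)
  have hK := abs_nonneg K
  have hc : Continuous g := continuous_iff_continuousAt.2 fun x => (h1 x).continuousAt
  have hc1 : Continuous g1 := continuous_iff_continuousAt.2 fun x => (h2 x).continuousAt
  exact ⟨der_x hC hK h1 hc1 a0 a1, der_x hC hK h2 h3 a1 a2,
    der_v hC hK h1 h2 h3 a0 a1 a2, cont hC hK hc a0, cont hC hK hc1 a1, cont hC hK h3 a2⟩

end Pool.TH330.AT
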